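import Pool.Agent.Helper97_WHC.StmtB

/-! # JEB: an orthonormal basis of joint eigenvectors -/

set_option autoImplicit false

open scoped BigOperators Function

namespace Pool.Agent.WHC.H15

open Pool.Agent.WHC

/-- a hermitian element of `S` acts by a scalar on the member of the basis -/
theorem scal {V : Type} [NormedAddCommGroup V] [InnerProductSpace ℂ V] [FiniteDimensional ℂ V]
    (ι : Type) (T : ι → V →ₗ[ℂ] V) (hT : ∀ i, (T i).IsSymmetric)
    (hC : Pairwise (Commute on T)) :
    ∃ (n : ℕ) (b : OrthonormalBasis (Fin n) ℂ V), ∀ i, ∀ j, ∃ lam : ℂ, T i (b j) = lam • b j := by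
  classical
  have hO := LinearMap.IsSymmetric.orthogonalFamily_iInf_eigenspaces (𝕜 := ℂ) (T := T) hT
  have hI := LinearMap.IsSymmetric.directSum_isInternal_of_pairwise_commute (𝕜 := ℂ)
    (T := T) hT hC
  set W : (ι → ℂ) → Submodule ℂ V := fun χ => ⨅ i, Module.End.eigenspace (T i) (χ i) with hW
  have hfin : {χ | W χ ≠ ⊥}.Finite := WellFoundedGT.finite_ne_bot_of_iSupIndep hO.independent
  haveI : Fintype {χ // W χ ≠ ⊥} := hfin.fintype
  have hI' : DirectSum.IsInternal (fun χ : {χ // W χ ≠ ⊥} => W χ.1) :=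
    DirectSum.isInternal_ne_bot_iff.mpr hI
  have hO' : OrthogonalFamily ℂ (fun χ : {χ // W χ ≠ ⊥} => W χ.1)
      (fun χ => (W χ.1).subtypeₗᵢ) := hO.comp Subtype.val_injective
  refine ⟨Module.finrank ℂ V, hI'.subordinateOrthonormalBasis rfl hO', ?_⟩
  intro i j
  have hj := hI'.subordinateOrthonormalBasis_subordinate rfl j hO'
  have h1 := (Submodule.mem_iInf _).mp hj i
  exact ⟨_, Module.End.mem_eigenspace_iff.mp h1⟩

theorem jeb : JebStmt := by
  intro V _ _ _ S hS hc ha
  have h0 := scal (V := V) {T : V →ₗ[ℂ] V // T ∈ S ∧ T.IsSymmetric} (fun i => i.1)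
    (fun i => i.2.2) (fun i j _ => (hS i.1 i.2.1 j.1 j.2.1).1)
  obtain ⟨n, b, hb⟩ := h0
  refine ⟨n, b, ?_⟩
  intro T hT j
  obtain ⟨T', hT', hadj⟩ := ha T hT
  have hadj' : ∀ v w : V, inner ℂ (T' v) w = inner ℂ v (T w) := by
    intro v w
    rw [← inner_conj_symm, ← hadj, inner_conj_symm]
  have hA : (T + T') ∈ S := (hS T hT T' hT').2
  have hB : (-Complex.I) • (T + (-1 : ℂ) • T') ∈ S :=
    hc _ _ ((hS T hT _ (hc (-1) T' hT')).2)
  have sA : (T + T').IsSymmetric := by
    intro v w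
    rw [LinearMap.add_apply, LinearMap.add_apply, inner_add_left, inner_add_right, hadj, hadj',
      add_comm]
  have sB : ((-Complex.I) • (T + (-1 : ℂ) • T')).IsSymmetric := by
    intro v w
    simp only [LinearMap.smul_apply, LinearMap.add_apply, inner_add_left, inner_add_right,
      inner_smul_left, inner_smul_right, hadj, hadj', map_neg, map_one, Complex.conj_I]
    ring
  obtain ⟨α, hα⟩ := hb ⟨_, hA, sA⟩ j
  obtain ⟨β, hβ⟩ := hb ⟨_, hB, sB⟩ j
  dsimp only at hα hβ
  refine ⟨(1 / 2) * (α + Complex.I * β), ?_⟩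
  have e1 : T (b j) = (1 / 2 : ℂ) • ((T + T') (b j) +
      Complex.I • (((-Complex.I) • (T + (-1 : ℂ) • T')) (b j))) := by
    simp only [LinearMap.smul_apply, LinearMap.add_apply, smul_add, smul_smul]
    have i1 : Complex.I * -Complex.I = 1 := by
      rw [mul_neg, Complex.I_mul_I, neg_neg]
    have i2 : Complex.I * (-Complex.I * -1) = -1 := by
      rw [← mul_assoc, i1, one_mul]
    rw [i1, i2]
    module
  rw [e1, hα, hβ]
  module

end Pool.Agent.WHC.H15
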